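import Pool.Agent.H13.EDM.Targets

/-!
Block M of the ENDS theorem, row HIX: the Hodge index inequality for mixed degrees.
-/

set_option autoImplicit false

namespace Pool.Agent.H10.EDM

open Pool.Agent.H8.TD (lc dg)
open Pool.Agent.H13.EDM

/-- the range of a family, two indices are separated -/
theorem rng {n : ℕ} {K : Type} (f : Fin n → K) (p q : Fin n) :
    Set.range f = f '' {l | l ≠ p ∧ l ≠ q} ∪ {f p, f q} := by
  ext x
  constructor
  · rintro ⟨l, rfl⟩
    by_cases h1 : l = p
    · right
      rw [h1]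
      exact Set.mem_insert _ _
    · by_cases h2 : l = q
      · right
        rw [h2]
        exact Set.mem_insert_of_mem _ rfl
      · left
        exact ⟨l, ⟨h1, h2⟩, rfl⟩
  · rintro (⟨l, _, rfl⟩ | h)
    · exact ⟨l, rfl⟩
    · rcases h with h | h
      · exact ⟨p, h.symm⟩
      · exact ⟨q, h.symm⟩

theorem pf_HIX (hADS : T_ADS) (hTRD : T_TRD) (hIFD : T_IFD) (hFGU : T_FGU) (hSIU : T_SIU)
    (hMDM : T_MDM) (hCMN : T_CMN) : T_HIX := by
  classical
  intro n a k K _ _ _ _ A B S p q htr hfg hpq
  obtain ⟨φ, hφ⟩ : ∃ φ : Fin n → Fin a → K,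
      φ = Function.update (Function.update S p A) q A := ⟨_, rfl⟩
  obtain ⟨ψ, hψ⟩ : ∃ ψ : Fin n → Fin a → K,
      ψ = Function.update (Function.update S p B) q B := ⟨_, rfl⟩
  obtain ⟨θ, hθ⟩ : ∃ θ : Fin n → Fin a → K,
      θ = Function.update (Function.update S p A) q B := ⟨_, rfl⟩
  rw [← hφ, ← hψ, ← hθ]
  have hφp : φ p = A := by rw [hφ, Function.update_of_ne hpq, Function.update_self]
  have hφq : φ q = A := by rw [hφ, Function.update_self]
  have hψp : ψ p = B := by rw [hψ, Function.update_of_ne hpq, Function.update_self]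
  have hψq : ψ q = B := by rw [hψ, Function.update_self]
  have hθp : θ p = A := by rw [hθ, Function.update_of_ne hpq, Function.update_self]
  have hθq : θ q = B := by rw [hθ, Function.update_self]
  have hφl : ∀ l, l ≠ p → l ≠ q → φ l = S l := fun l h1 h2 => by
    rw [hφ, Function.update_of_ne h2, Function.update_of_ne h1]
  have hψl : ∀ l, l ≠ p → l ≠ q → ψ l = S l := fun l h1 h2 => by
    rw [hψ, Function.update_of_ne h2, Function.update_of_ne h1]
  have hθl : ∀ l, l ≠ p → l ≠ q → θ l = S l := fun l h1 h2 => by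
    rw [hθ, Function.update_of_ne h2, Function.update_of_ne h1]
  obtain ⟨I, hI⟩ : ∃ I : Finset (Fin n), I = Finset.univ.filter fun l => l ≠ p ∧ l ≠ q :=
    ⟨_, rfl⟩
  have hmI : ∀ l, l ∈ I ↔ l ≠ p ∧ l ≠ q := fun l => by rw [hI]; simp
  obtain ⟨s, t, hst, hs, ht⟩ := hCMN n a k K φ ψ I htr hfg (fun l hl => by
    rw [hφl l ((hmI l).1 hl).1 ((hmI l).1 hl).2, hψl l ((hmI l).1 hl).1 ((hmI l).1 hl).2])
  rcases Nat.eq_zero_or_pos (md k φ) with h0 | hpos
  · rw [h0, zero_mul]
    exact Nat.zero_le _
  -- the independent family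
  have hind : AlgebraicIndependent k fun l => lc (s l) (φ l) := by
    rw [← hIFD n k K _ htr hfg, hs]
    exact hpos
  obtain ⟨Y, hY⟩ : ∃ Y : Set K, Y = (fun l => lc (s l) (S l)) '' {l | l ≠ p ∧ l ≠ q} := ⟨_, rfl⟩
  have hcard : I.card + 2 = n := by
    have h1 : I = (Finset.univ.erase p).erase q := by
      ext l
      rw [hmI]
      simp [and_comm]
    rw [h1, Finset.card_erase_of_mem (by simp [hpq.symm]), Finset.card_erase_of_mem (by simp),
      Finset.card_univ, Fintype.card_fin]
    have h2 : 2 ≤ n := by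
      have h3 : ({p, q} : Finset (Fin n)).card ≤ Fintype.card (Fin n) := Finset.card_le_univ _
      rwa [Finset.card_pair hpq, Fintype.card_fin] at h3
    omega
  obtain ⟨x, hx⟩ : ∃ x : Fin I.card → K, x = fun j => lc (s (I.equivFin.symm j).1)
      (φ (I.equivFin.symm j).1) := ⟨_, rfl⟩
  have hxi : AlgebraicIndependent k x := by
    rw [hx]
    exact hind.comp (fun j => (I.equivFin.symm j).1)
      (Subtype.val_injective.comp I.equivFin.symm.injective)
  have hxr : Set.range x = Y := by
    rw [hx, hY]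
    ext y
    constructor
    · rintro ⟨j, rfl⟩
      have h1 := (hmI _).1 (I.equivFin.symm j).2
      refine ⟨(I.equivFin.symm j).1, h1, ?_⟩
      simp only
      rw [hφl _ h1.1 h1.2]
    · rintro ⟨l, hl, rfl⟩
      refine ⟨I.equivFin ⟨l, (hmI l).2 hl⟩, ?_⟩
      simp only [Equiv.symm_apply_apply]
      rw [hφl l hl.1 hl.2]
  have htr2 : Algebra.trdeg (IntermediateField.adjoin k Y) K = (1 + 1 : ℕ) := by
    rw [← hxr]
    refine hTRD I.card (1 + 1) k K x hxi ?_
    rw [htr]
    congr 1
    omega
  have hfg2 := hFGU k K Y hfg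
  have hcz : CharZero (IntermediateField.adjoin k Y) :=
    charZero_of_injective_algebraMap (algebraMap k (IntermediateField.adjoin k Y)).injective
  -- degrees of families whose members outside `p`, `q` are those of `Y`
  have hdeg : ∀ (σ : Fin n → Fin a → k) (χ : Fin n → Fin a → K),
      (∀ l, l ≠ p → l ≠ q → σ l = s l) → (∀ l, l ≠ p → l ≠ q → χ l = S l) →
      dg (IntermediateField.adjoin k Y) {lc (σ p) (χ p), lc (σ q) (χ q)} =
        dg k (Set.range fun l => lc (σ l) (χ l)) := by
    intro σ χ h1 h2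
    rw [hADS, rng _ p q]
    congr 2
    rw [hY]
    apply Set.image_congr
    intro l hl
    rw [h1 l hl.1 hl.2, h2 l hl.1 hl.2]
  have key := hSIU 1 a (md k θ) (md k ψ) (md k θ) k (IntermediateField.adjoin k Y) K B
    (lc (s p) A) (fun _ => lc (s q) A) htr2 hfg2 ?_ ?_ ?_
  · have h1 : dg (IntermediateField.adjoin k Y)
        (insert (lc (s p) A) (Set.range fun _ : Fin 1 => lc (s q) A)) = md k φ := by
      rw [Set.range_const, ← hs, ← hdeg s φ (fun _ _ _ => rfl) hφl, hφp, hφq]
    rw [h1] at key
    have h2 : (1 + 1).factorial = 2 := rfl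
    rw [h2] at key
    calc md k φ * md k ψ ≤ 2 * (md k θ * md k θ) := key
      _ = _ := by ring
  · refine ⟨fun i => if i = 0 then t p else t q, ?_⟩
    have h1 : Set.range (fun i : Fin (1 + 1) => lc (if i = 0 then t p else t q) B) =
        {lc (t p) (ψ p), lc (t q) (ψ q)} := by
      rw [hψp, hψq]
      ext y
      constructor
      · rintro ⟨i, rfl⟩
        by_cases hi : i = 0
        · left
          simp [hi]
        · right
          simp [hi]
      · rintro (h | h)
        · exact ⟨0, by simp [h]⟩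
        · refine ⟨1, ?_⟩
          have : (1 : Fin (1 + 1)) ≠ 0 := by decide
          simp only [if_neg this]
          exact h.symm
    rw [h1, hdeg t ψ (fun l h2 h3 => (hst l ((hmI l).2 ⟨h2, h3⟩)).symm) hψl, ht]
  · intro t'
    have h1 : insert (lc (s p) A) (Set.range fun i : Fin 1 => lc (t' i) B) =
        {lc ((Function.update s q (t' 0)) p) (θ p), lc ((Function.update s q (t' 0)) q) (θ q)} := by
      rw [hθp, hθq, Function.update_self, Function.update_of_ne hpq]
      congr 1
      ext y
      constructor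
      · rintro ⟨i, rfl⟩
        rw [Subsingleton.elim i 0]
        rfl
      · rintro rfl
        exact ⟨0, rfl⟩
    rw [h1, hdeg (Function.update s q (t' 0)) θ (fun l _ h3 => Function.update_of_ne h3 _ _) hθl]
    exact (hMDM n a k K θ htr hfg).1 _
  · intro s'
    obtain ⟨σ, hσ⟩ : ∃ σ : Fin n → Fin a → k,
        σ = Function.update (Function.update s p (s q)) q s' := ⟨_, rfl⟩
    have hσp : σ p = s q := by rw [hσ, Function.update_of_ne hpq, Function.update_self]
    have hσq : σ q = s' := by rw [hσ, Function.update_self]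
    have h1 : insert (lc s' B) (Set.range fun _ : Fin 1 => lc (s q) A) =
        {lc (σ p) (θ p), lc (σ q) (θ q)} := by
      rw [hθp, hθq, hσp, hσq, Set.range_const]
      exact Set.pair_comm _ _
    rw [h1, hdeg σ θ (fun l h2 h3 => by
      rw [hσ, Function.update_of_ne h3, Function.update_of_ne h2]) hθl]
    exact (hMDM n a k K θ htr hfg).1 _

end Pool.Agent.H10.EDM
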